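import Pool.Agent.Y110.BP.Rel

/-!
# Homologically trivial correspondences and the Albanese kernel; surfaces with `p_g = 0`
-/

open CategoryTheory AlgebraicGeometry

universe u v w

namespace Pool.Agent.Y110.BP

open Pool.Agent.H914 Pool.Agent.H914.VarClass Pool.Agent.H914.VarClass.Obj Pool.Agent.W492.BB
  Pool.Agent.W550.Corr Pool.Agent.TH133 Pool.Agent.Y152.AS

set_option linter.unusedSectionVars false
set_option linter.unusedVariables false

variable {k : Type u} [Field k] {𝒱 : VarClass k}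

section chow

variable {C : TheoryData.{u, v, 0} 𝒱 ℚ} [hC : IsChowProj C] {X Y W U S T : 𝒱.Obj}

include hC

lemma inAlbKer_add {α β : C.A S} (hα : InAlbKer C α) (hβ : InAlbKer C β) :
    InAlbKer C (α + β) :=
  inAlbKer_iff.2 (Submodule.add_mem _ (inAlbKer_iff.1 hα) (inAlbKer_iff.1 hβ))

lemma ext_add_left (a b : C.A X) (c : C.A Y) : C.ext (a + b) c = C.ext a c + C.ext b c := by
  rw [TheoryData.ext, map_add, add_mul]; rfl

lemma ext_add_right (a : C.A X) (b c : C.A Y) : C.ext a (b + c) = C.ext a b + C.ext a c := by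
  rw [TheoryData.ext, map_add, mul_add]; rfl

/-- Polarisation. -/
lemma polar {P : Submodule ℚ (C.A (T.prod T))} (φ : C.A S → C.A T)
    (hφ : ∀ a b, φ (a + b) = φ a + φ b)
    (h : ∀ α : C.A S, InAlbKer C α → C.ext (φ α) (φ α) ∈ P) {α β : C.A S}
    (hα : InAlbKer C α) (hβ : InAlbKer C β) :
    C.ext (φ α) (φ β) + C.ext (φ β) (φ α) ∈ P := by
  have h1 := Submodule.sub_mem _ (Submodule.sub_mem _ (h _ (inAlbKer_add hα hβ)) (h _ hα)) (h _ hβ)
  have h2 : C.ext (φ (α + β)) (φ (α + β)) - C.ext (φ α) (φ α) - C.ext (φ β) (φ β) =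
      C.ext (φ α) (φ β) + C.ext (φ β) (φ α) := by
    rw [hφ, ext_add_left, ext_add_right, ext_add_right]
    abel
  rwa [h2] at h1

section weil

variable {K : Type w} [Field K] {H : WeilTheoryData.{u, v, w} C K} [hH : IsWeilProj H]

include hH

/-- Homologically trivial correspondences map zero-cycles of degree zero to the Albanese kernel. -/
lemma inAlbKer_of_deg_zero (hF : ClassicalFacts H) (hS : S.dim = 2) (hT : T.dim = 2)
    {N : C.A (S.prod T)} (hN : N ∈ C.gr (S.prod T) 2) (hcl : H.cl N = 0) {x : C.A S}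
    (hx : C.Deg S.dim x) (hx0 : H.cl x = 0) : InAlbKer C (C.act N x) := by
  refine ⟨?_, fun Y W hW => ?_⟩
  · have h1 := act_mem' C (e := 0) (Γ := N) (by rw [hS]; exact hN) hx
    exact deg_cast (by rw [hS, hT]; norm_num) h1
  · rw [← C.act_comp]
    refine hF.picard S Y (C.comp N W) ?_ ?_ x hx hx0
    · have h1 := comp_mem C (e := 0) (e' := -1) (Γ := N) (Δ := W) (by rw [hS]; exact hN)
        (by rw [hT]; exact hW)
      exact deg_cast (by rw [hS]; norm_num) h1
    · rw [cl_comp, hcl, TheoryData.comp, map_zero, mul_zero, map_zero]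

/-- A product of two homologically trivial correspondences maps all zero-cycles to the Albanese
kernel. -/
lemma inAlbKer_comp (hF : ClassicalFacts H) (hS : S.dim = 2) {M N : C.A (S.prod S)}
    (hM : M ∈ C.gr (S.prod S) 2) (hMcl : H.cl M = 0) (hN : N ∈ C.gr (S.prod S) 2)
    (hNcl : H.cl N = 0) {x : C.A S} (hx : C.Deg S.dim x) :
    InAlbKer C (C.act N (C.act M x)) := by
  have h1 := act_mem' C (e := 0) (Γ := M) (by rw [hS]; exact hM) hx
  have h2 : C.Deg S.dim (C.act M x) := deg_cast (by ring) h1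
  exact inAlbKer_of_deg_zero hF hS hS hN hNcl h2 (by
    rw [cl_act, hMcl, TheoryData.act_zero])

/-- Degenerate correspondences have degree zero. -/
lemma degenerate_le (hS : S.dim = 2) {W : C.A (S.prod T)} (hW : W ∈ degenerate C S T) :
    W ∈ C.gr (S.prod T) 2 := by
  refine (Submodule.span_le.2 ?_ : degenerate C S T ≤ C.gr (S.prod T) 2) hW
  rintro c ⟨Y, Γ, Δ, hY, hd | hd, rfl⟩
  · have := comp_mem C (e := -1) (e' := 1) (Γ := Γ) (Δ := Δ) (by rw [hS]; exact hd.1)
      (by rw [hY]; exact hd.2)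
    exact deg_cast (by rw [hS]; norm_num) this
  · have := comp_mem C (e := 0) (e' := 0) (Γ := Γ) (Δ := Δ) (by rw [hS]; exact hd.1)
      (by rw [hY]; exact hd.2)
    exact deg_cast (by rw [hS]; norm_num) this

/-- The action of an algebraically trivial correspondence is nilpotent. -/
lemma iterate_of_alg (hF : ClassicalFacts H) (hS : S.dim = 2) {z : C.A (S.prod S)}
    (hz : z ∈ algTrivial H (S.prod S) 2) : ∃ n : ℕ, ∀ a : C.A S, (C.act z)^[n] a = 0 :=
  hF.nilpotent S z (by rw [hS]; exact hz)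

lemma comp_mem2 (hS : S.dim = 2) {P Q : C.A (S.prod S)} (hP : P ∈ C.gr (S.prod S) 2)
    (hQ : Q ∈ C.gr (S.prod S) 2) : C.comp P Q ∈ C.gr (S.prod S) 2 := by
  have := comp_mem0 C (X := S) (Γ := P) (Δ := Q) (by rw [hS]; exact hP) (by rw [hS]; exact hQ)
  rwa [hS] at this

/-- **The main theorem for surfaces whose diagonal is homologically degenerate.** -/
theorem albKer_eq_zero (hF : ClassicalFacts H) (hS : S.dim = 2)
    (hpg : IsHomDegenerate H (dg C S)) {m : ℕ} (U : Fin m → 𝒱.Obj) (f : ∀ j, U j ⟶ S.prod S)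
    (hU : ∀ j, (U j).dim ≤ 2)
    (hs : ∀ α : C.A S, InAlbKer C α → C.ext α α ∈ zeroSupp C U f) (α : C.A S)
    (hα : InAlbKer C α) : α = 0 := by
  obtain ⟨W0, hW0, hcl⟩ := hpg
  have hdg : dg C S ∈ C.gr (S.prod S) 2 := by have := dg_mem C S; rwa [hS] at this
  have hW0m : W0 ∈ degenerate C S S := hW0.mem
  have hW0d : W0 ∈ C.gr (S.prod S) 2 := degenerate_le (H := H) hS hW0m
  set N : C.A (S.prod S) := dg C S - W0 with hNdef
  have hN : N ∈ C.gr (S.prod S) 2 := Submodule.sub_mem _ hdg hW0d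
  have hNcl : H.cl N = 0 := by rw [hNdef, map_sub, hcl, sub_self]
  have hNact : ∀ β : C.A S, InAlbKer C β → C.act N β = β := by
    intro β hβ
    rw [hNdef, C.act_sub, act_dg, degenerate_act hS hW0m (inAlbKer_iff.1 hβ), sub_zero]
  have hNtact : ∀ β : C.A S, InAlbKer C β → C.act (tp C N) β = β := by
    intro β hβ
    rw [hNdef, tp_sub, tp_dg, C.act_sub, act_dg,
      degenerate_act hS (degenerate_tp hW0m) (inAlbKer_iff.1 hβ), sub_zero]
  set B : C.A (S.prod S) := C.comp N N with hBdef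
  have hB : B ∈ C.gr (S.prod S) 2 := comp_mem2 (H := H) hS hN hN
  have hBimg : ∀ x : C.A S, C.Deg S.dim x → InAlbKer C (C.act B x) := by
    intro x hx
    rw [hBdef, C.act_comp]
    exact inAlbKer_comp hF hS hN hNcl hN hNcl hx
  have hrel := rel hF hS U f hU B B 0 0 hB hB (Submodule.zero_mem _) (Submodule.zero_mem _) (by
    intro x y hx hy
    have h1 := polar (P := zeroSupp C U f) (φ := fun a : C.A S => a) (fun a b => rfl) hs
      (hBimg x hx) (hBimg y hy)
    rw [C.act_zero, C.act_zero, C.ext_zero_left, add_zero, add_zero]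
    exact h1) N hN hNcl
  rw [zero_comp, zero_comp, add_zero] at hrel
  set j : C.A (S.prod S) := C.comp (C.comp B (N + tp C N)) (tp C B) with hj
  obtain ⟨n, hn⟩ := iterate_of_alg hF hS hrel
  -- the action on the Albanese kernel
  have hone : ∀ β : C.A S, InAlbKer C β → C.act j β = (2 : ℚ) • β := by
    intro β hβ
    have h2 : InAlbKer C ((2 : ℚ) • β) :=
      inAlbKer_iff.2 (Submodule.smul_mem _ _ (inAlbKer_iff.1 hβ))
    rw [hj, C.act_comp, C.act_comp, hBdef, C.act_comp, hNact β hβ, hNact β hβ, C.act_add,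
      hNact β hβ, hNtact β hβ, ← two_smul ℚ β, tp_comp C (ch_comm C), C.act_comp,
      hNtact _ h2, hNtact _ h2]
  have hpow : ∀ n : ℕ, (C.act j)^[n] α = ((2 : ℚ) ^ n) • α := by
    intro n
    induction n with
    | zero => rw [pow_zero, one_smul]; rfl
    | succ n ih =>
      rw [Function.iterate_succ_apply', ih, act_map_smul, hone α hα, smul_smul, pow_succ]
  have h3 := hpow n
  rw [hn] at h3
  have h4 : ((2 : ℚ) ^ n) ≠ 0 := pow_ne_zero _ two_ne_zero
  exact (smul_eq_zero.1 h3.symm).resolve_left h4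

end weil

end chow

end Pool.Agent.Y110.BP
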