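import Pool.Agent.Y110.BP.Defs
import Pool.Agent.Y152.AS.Proj

/-!
# Correspondences with actions on zero-cycles supported on surfaces
-/

open CategoryTheory AlgebraicGeometry

universe u v w

namespace Pool.Agent.Y110.BP

open Pool.Agent.H914 Pool.Agent.H914.VarClass Pool.Agent.H914.VarClass.Obj Pool.Agent.W492.BB
  Pool.Agent.W550.Corr Pool.Agent.TH133 Pool.Agent.Y152.AS

set_option linter.unusedSectionVars false
set_option linter.unusedVariables false

variable {k : Type u} [Field k] {𝒱 : VarClass k}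

section chow

variable {C : TheoryData.{u, v, 0} 𝒱 ℚ} [hC : IsChowProj C] {X Y W U S T : 𝒱.Obj}

include hC

lemma act_tp_push_left (g : W ⟶ X) (γ : C.A (W.prod Y)) (e : C.A Y) :
    C.act (tp C (C.push (prodMap g (𝟙 Y)) γ)) e = C.push g (C.act (tp C γ) e) := by
  rw [act_tp, act_tp, ← C.proj_right, ← C.push_comp, ← C.push_comp, ← C.pull_comp, prodMap_fst,
    prodMap_snd, Category.comp_id]

lemma act_tp_push_right (f : U ⟶ Y) (δ : C.A (X.prod U)) (e : C.A Y) :
    C.act (tp C (C.push (prodMap (𝟙 X) f) δ)) e = C.act (tp C δ) (C.pull f e) := by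
  rw [act_tp, act_tp, ← C.proj_right, ← C.push_comp, ← C.pull_comp, prodMap_fst,
    prodMap_snd, Category.comp_id, C.pull_comp]

lemma graph_mem (g : W ⟶ X) : C.graph g ∈ C.gr (W.prod X) X.dim := by
  have h := C.push_mem (Obj.lift (𝟙 W) g) (C.one_mem W)
  have e1 : (0 : ℤ) + 1 * (((W.prod X).dim : ℤ) - (W.dim : ℤ)) = X.dim := by
    rw [dim_prod]; push_cast; ring
  rwa [e1] at h

/-- The class of the action. -/
lemma cl_act {K : Type w} [Field K] (H : WeilTheoryData.{u, v, w} C K) [hH : IsWeilProj H]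
    (Γ : C.A (X.prod Y)) (x : C.A X) : H.cl (C.act Γ x) = H.act (H.cl Γ) (H.cl x) := by
  rw [TheoryData.act_apply, TheoryData.act_apply, H.cl_push, map_mul, H.cl_pull]

section weil

variable {K : Type w} [Field K] {H : WeilTheoryData.{u, v, w} C K} [hH : IsWeilProj H]

include hH

/-- Correspondences preserve algebraic triviality. -/
lemma act_algTrivial {j j' : ℕ} {Δ : C.A (X.prod Y)}
    (hΔ : Δ ∈ C.gr (X.prod Y) (X.dim + ((j' : ℤ) - j))) {x : C.A X}
    (hx : x ∈ algTrivial H X j) : C.act Δ x ∈ algTrivial H Y j' := by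
  rw [algTrivial] at hx
  induction hx using Submodule.span_induction with
  | mem x hx =>
    obtain ⟨Z, y, Γ, hy, hy1, hy2, hΓ, rfl⟩ := hx
    rw [← C.act_comp]
    refine Submodule.subset_span ⟨Z, y, C.comp Γ Δ, hy, hy1, hy2, ?_, rfl⟩
    have h2 : Γ ∈ C.gr (Z.prod X) (Z.dim + ((j : ℤ) - Z.dim)) := by
      rw [add_sub_cancel]; exact hΓ
    have := comp_mem C h2 hΔ
    have e : (Z.dim : ℤ) + (((j : ℤ) - Z.dim) + ((j' : ℤ) - j)) = j' := by ring
    rwa [e] at this
  | zero => rw [TheoryData.act_map_zero]; exact Submodule.zero_mem _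
  | add x y _ _ h1 h2 => rw [act_map_add]; exact Submodule.add_mem _ h1 h2
  | smul q x _ h => rw [act_map_smul]; exact Submodule.smul_mem _ _ h

lemma push_algTrivial {l l' : ℕ} (g : W ⟶ X) (h : l + X.dim = l' + W.dim) {z : C.A W}
    (hz : z ∈ algTrivial H W l) : C.push g z ∈ algTrivial H X l' := by
  rw [← C.act_graph]
  refine act_algTrivial (j := l) (j' := l') ?_ hz
  have e : (W.dim : ℤ) + ((l' : ℤ) - l) = X.dim := by
    have : (l : ℤ) + X.dim = l' + W.dim := by exact_mod_cast h
    linarith
  rw [e]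
  exact graph_mem g

/-- The main step: correspondences whose action on zero-cycles is supported on surfaces map
homologically trivial cycles of codimension two to algebraically trivial ones. -/
theorem core (hF : ClassicalFacts H) (Γ : C.A (X.prod Y)) (hΓ : C.Deg Y.dim Γ) {m : ℕ}
    (U : Fin m → 𝒱.Obj) (f : ∀ j, U j ⟶ Y) (hU : ∀ j, (U j).dim ≤ 2)
    (hs : ∀ x, C.Deg X.dim x → C.act Γ x ∈ zeroSupp C U f) (e : C.A Y) (he : C.Deg 2 e)
    (hcl : H.cl e = 0) : C.act (tp C Γ) e ∈ algTrivial H X 2 := by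
  obtain ⟨Γ₁, h1, Γ₂, h2, rfl⟩ := Submodule.mem_sup.1 (hF.bloch_srinivas X Y Γ m U f hΓ hs)
  rw [tp_add, C.act_add]
  refine Submodule.add_mem _ ?_ ?_
  · clear hs hΓ h2
    rw [overDivisors] at h1
    induction h1 using Submodule.span_induction with
    | mem z hz =>
      obtain ⟨W, g, γ, hW, hγ, rfl⟩ := hz
      change C.act (tp C (C.push (prodMap g (𝟙 Y)) γ)) e ∈ _
      rw [act_tp_push_left]
      refine push_algTrivial (l := 1) g (by omega) (hF.divisors _ _ ?_ ?_)
      · have h1 := act_mem' C (e := -1) (Γ := tp C γ) (x := e) (i := 2)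
          (tp_mem C (by exact hγ)) he
        exact h1
      · rw [cl_act, hcl, TheoryData.act_map_zero]
    | zero => rw [tp_zero, C.act_zero]; exact Submodule.zero_mem _
    | add a b _ _ ha hb => rw [tp_add, C.act_add]; exact Submodule.add_mem _ ha hb
    | smul q a _ ha =>
      rw [tp_smul, act_smul]
      exact Submodule.smul_mem _ _ ha
  · clear hs hΓ h1
    rw [overFamily] at h2
    induction h2 using Submodule.span_induction with
    | mem z hz =>
      obtain ⟨j, δ, hδ, rfl⟩ := hz
      change C.act (tp C (C.push (prodMap (𝟙 X) (f j)) δ)) e ∈ _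
      rw [act_tp_push_right]
      have h2 : C.pull (f j) e ∈ C.gr (U j) 2 := C.pull_mem _ he
      rcases Nat.lt_or_ge (U j).dim 2 with h3 | h3
      · rw [IsChowProj.gr_top (C := C) _ 2 _ h2 (by exact_mod_cast h3), C.act_map_zero]
        exact Submodule.zero_mem _
      · have h4 : (U j).dim = 2 := le_antisymm (hU j) h3
        refine act_algTrivial (j := 2) (j' := 2) ?_ ?_
        · have h5 := tp_mem C hδ
          rwa [sub_self, add_zero]
        · have h6 := hF.points (U j) (C.pull (f j) e) (by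
            change _ ∈ C.gr (U j) _
            rw [h4]; exact h2) (by rw [H.cl_pull, hcl, map_zero])
          rwa [h4] at h6
    | zero => rw [tp_zero, C.act_zero]; exact Submodule.zero_mem _
    | add a b _ _ ha hb => rw [tp_add, C.act_add]; exact Submodule.add_mem _ ha hb
    | smul q a _ ha =>
      rw [tp_smul, act_smul]
      exact Submodule.smul_mem _ _ ha

end weil

end chow

end Pool.Agent.Y110.BP
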