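import Pool.Agent.Y152.AS.Defs

/-!
# Zero-cycles on products of surfaces: definitions
-/

open CategoryTheory AlgebraicGeometry

universe u v w

namespace Pool.Agent.Y110.BP

open Pool.Agent.H914 Pool.Agent.H914.VarClass Pool.Agent.H914.VarClass.Obj Pool.Agent.W492.BB
  Pool.Agent.W550.Corr Pool.Agent.TH133 Pool.Agent.Y152.AS

variable {k : Type u} [Field k] {𝒱 : VarClass k}

/-- The zero-cycles (with rational coefficients, modulo rational equivalence) on `Y` which are
supported on the images of the finitely many varieties `U j ⟶ Y`: the sums of push-forwards of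
zero-cycles on the `U j`. -/
def zeroSupp (C : TheoryData.{u, v, 0} 𝒱 ℚ) {Y : 𝒱.Obj} {m : ℕ} (U : Fin m → 𝒱.Obj)
    (f : ∀ j, U j ⟶ Y) : Submodule ℚ (C.A Y) :=
  Submodule.span ℚ {z | ∃ (j : Fin m) (β : C.A (U j)), C.Deg (U j).dim β ∧ z = C.down (f j) β}

/-- The classes in `CH^(dim Y)(X × Y)_ℚ` which are supported on `D × Y` for divisors `D` on `X`:
the sums of push-forwards of classes on `W × Y`, where `W ⟶ X` and `dim W = dim X - 1`. -/
noncomputable def overDivisors (C : TheoryData.{u, v, 0} 𝒱 ℚ) (X Y : 𝒱.Obj) : Submodule ℚ (C.A (X.prod Y)) :=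
  Submodule.span ℚ {z | ∃ (W : 𝒱.Obj) (g : W ⟶ X) (γ : C.A (W.prod Y)), W.dim + 1 = X.dim ∧
    C.Deg ((Y.dim : ℤ) - 1) γ ∧ z = C.down (prodMap g (𝟙 Y)) γ}

/-- The classes in `CH^(dim Y)(X × Y)_ℚ` which are supported on the images of the `X × U j`. -/
noncomputable def overFamily (C : TheoryData.{u, v, 0} 𝒱 ℚ) (X : 𝒱.Obj) {Y : 𝒱.Obj} {m : ℕ}
    (U : Fin m → 𝒱.Obj) (f : ∀ j, U j ⟶ Y) : Submodule ℚ (C.A (X.prod Y)) :=
  Submodule.span ℚ {z | ∃ (j : Fin m) (δ : C.A (X.prod (U j))), C.Deg (U j).dim δ ∧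
    z = C.down (prodMap (𝟙 X) (f j)) δ}

/-- The theorem of Bloch and Srinivas on the decomposition of correspondences, which holds for
all smooth projective varieties over a universal domain (for example over the complex numbers).
Suppose that the correspondence `Γ ∈ CH^(dim Y)(X × Y)_ℚ` maps every zero-cycle on `X` to a
zero-cycle on `Y` which is supported on the images of the varieties `U j ⟶ Y`. Then `Γ` is the sum
of a class supported on `D × Y` for a divisor `D` on `X` and of a class supported on the images of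
the products `X × U j`. -/
def BlochSrinivas (C : TheoryData.{u, v, 0} 𝒱 ℚ) : Prop :=
  ∀ (X Y : 𝒱.Obj) (Γ : C.A (X.prod Y)) (m : ℕ) (U : Fin m → 𝒱.Obj) (f : ∀ j, U j ⟶ Y),
    C.Deg Y.dim Γ → (∀ x : C.A X, C.Deg X.dim x → C.act Γ x ∈ zeroSupp C U f) →
    Γ ∈ overDivisors C X Y ⊔ overFamily C X U f

/-- The zero-cycles on `X × Y` are sums of products of zero-cycles on `X` and on `Y` (this holds
over algebraically closed fields). -/
def ProductsSpan (C : TheoryData.{u, v, 0} 𝒱 ℚ) : Prop :=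
  ∀ (X Y : 𝒱.Obj) (z : C.A (X.prod Y)), C.Deg (X.prod Y).dim z →
    z ∈ Submodule.span ℚ {w | ∃ (x : C.A X) (y : C.A Y), C.Deg X.dim x ∧ C.Deg Y.dim y ∧
      w = C.ext x y}

/-- On every variety `X` of positive dimension there is a curve `Y ⟶ X` such that every zero-cycle
on `X` is the sum of a zero-cycle on `Y` and an element of the Albanese kernel (the Jacobian of a
general curve section of `X` maps onto the Albanese variety of `X`). -/
def CurvesGenerate (C : TheoryData.{u, v, 0} 𝒱 ℚ) : Prop :=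
  ∀ X : 𝒱.Obj, 1 ≤ X.dim → ∃ (Y : 𝒱.Obj) (g : Y ⟶ X), Y.dim = 1 ∧
    ∀ x : C.A X, C.Deg X.dim x → ∃ y : C.A Y, C.Deg 1 y ∧ InAlbKer C (x - C.down g y)

section weil

variable {C : TheoryData.{u, v, 0} 𝒱 ℚ} {K : Type w} [Field K] (H : WeilTheoryData.{u, v, w} C K)

/-- The algebraically trivial classes in `CH^l(X)_ℚ`: the sums of the classes `Γ_* c`, where `c` is
a homologically trivial zero-cycle on a curve `T` (that is, a zero-cycle of degree zero) and
`Γ ∈ CH^l(T × X)`. -/
def algTrivial (X : 𝒱.Obj) (l : ℕ) : Submodule ℚ (C.A X) :=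
  Submodule.span ℚ {z | ∃ (T : 𝒱.Obj) (c : C.A T) (Γ : C.A (T.prod X)), T.dim = 1 ∧
    C.Deg 1 c ∧ H.cl c = 0 ∧ C.Deg l Γ ∧ z = C.act Γ c}

/-- Homologically trivial divisor classes are algebraically trivial. -/
def DivisorsAlgTrivial : Prop :=
  ∀ (X : 𝒱.Obj) (D : C.A X), C.Deg 1 D → H.cl D = 0 → D ∈ algTrivial H X 1

/-- Homologically trivial zero-cycles are algebraically trivial. -/
def PointsAlgTrivial : Prop :=
  ∀ (X : 𝒱.Obj) (z : C.A X), C.Deg X.dim z → H.cl z = 0 → z ∈ algTrivial H X X.dim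

/-- The action of an algebraically trivial self-correspondence of degree zero on the Chow groups
is nilpotent (Voevodsky, Voisin). -/
def AlgTrivialNilpotent : Prop :=
  ∀ (X : 𝒱.Obj) (z : C.A (X.prod X)), z ∈ algTrivial H (X.prod X) X.dim →
    ∃ n : ℕ, ∀ a : C.A X, (C.act z)^[n] a = 0

/-- A homologically trivial divisor class on `X × Y` acts as zero on the homologically trivial
zero-cycles (since `Pic^0(X × Y) = Pic^0(X) × Pic^0(Y)`). -/
def PicardOfProducts : Prop :=
  ∀ (X Y : 𝒱.Obj) (D : C.A (X.prod Y)), C.Deg 1 D → H.cl D = 0 →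
    ∀ x : C.A X, C.Deg X.dim x → H.cl x = 0 → C.act D x = 0

/-- Known theorems about the Chow groups with rational coefficients of smooth projective varieties
over a universal domain, for example over the complex numbers. -/
structure ClassicalFacts : Prop where
  products : ProductsSpan C
  bloch_srinivas : BlochSrinivas C
  divisors : DivisorsAlgTrivial H
  points : PointsAlgTrivial H
  nilpotent : AlgTrivialNilpotent H
  picard : PicardOfProducts H

end weil

/-- The zero-cycles `(Z_* α) × (Z_* α)` on `T × T`, for all `α` in the Albanese kernel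
`F^2 CH_0(S)_ℚ`, are supported on one closed subset of dimension at most two: on the images of
finitely many varieties `U j ⟶ T × T` of dimension at most two. -/
def SquaresOnSurface (C : TheoryData.{u, v, 0} 𝒱 ℚ) {S T : 𝒱.Obj} (Z : C.A (S.prod T)) : Prop :=
  ∃ (m : ℕ) (U : Fin m → 𝒱.Obj) (f : ∀ j, U j ⟶ T.prod T), (∀ j, (U j).dim ≤ 2) ∧
    ∀ α : C.A S, InAlbKer C α → C.ext (C.act Z α) (C.act Z α) ∈ zeroSupp C U f

/-- All zero-cycles on `Y` are supported on one closed subset of dimension at most two: on the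
images of finitely many varieties `U j ⟶ Y` of dimension at most two. -/
def ZeroCyclesOnSurface (C : TheoryData.{u, v, 0} 𝒱 ℚ) (Y : 𝒱.Obj) : Prop :=
  ∃ (m : ℕ) (U : Fin m → 𝒱.Obj) (f : ∀ j, U j ⟶ Y), (∀ j, (U j).dim ≤ 2) ∧
    ∀ z : C.A Y, C.Deg Y.dim z → z ∈ zeroSupp C U f

/-- All symmetric zero-cycles `x × y + y × x` on `X × X` (so all zero-cycles on the symmetric
square of `X`) are supported on one closed subset of dimension at most two. -/
def SymZeroCyclesOnSurface (C : TheoryData.{u, v, 0} 𝒱 ℚ) (X : 𝒱.Obj) : Prop :=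
  ∃ (m : ℕ) (U : Fin m → 𝒱.Obj) (f : ∀ j, U j ⟶ X.prod X), (∀ j, (U j).dim ≤ 2) ∧
    ∀ x y : C.A X, C.Deg X.dim x → C.Deg X.dim y → C.ext x y + C.ext y x ∈ zeroSupp C U f

end Pool.Agent.Y110.BP
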