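import Pool.Agent.Y110.BP.Alb

/-!
# Bloch's conjecture for a surface with `p_g = 0` and zero-cycles on its square
-/

open CategoryTheory AlgebraicGeometry

universe u v w

namespace Pool.Agent.Y110.BP

open Pool.Agent.H914 Pool.Agent.H914.VarClass Pool.Agent.H914.VarClass.Obj Pool.Agent.W492.BB
  Pool.Agent.W550.Corr Pool.Agent.TH133 Pool.Agent.Y152.AS

/-- The criteria for the vanishing of the Albanese kernel. -/
theorem main {k : Type u} [Field k] {𝒱 : VarClass k} {C : TheoryData.{u, v, 0} 𝒱 ℚ}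
    [IsChowProj C] {K : Type w} [Field K] (H : WeilTheoryData.{u, v, w} C K) [IsWeilProj H]
    (hF : ClassicalFacts H) (hcurves : CurvesGenerate C) (X : 𝒱.Obj) (hX : X.dim = 2)
    (hpg : IsHomDegenerate H (dg C X)) :
    List.TFAE [
      ∀ t : C.A X, InAlbKer C t → t = 0,
      ∀ t : C.A X, InAlbKer C t → C.ext t t = 0,
      SquaresOnSurface C (dg C X),
      SymZeroCyclesOnSurface C X,
      ZeroCyclesOnSurface C (X.prod X)] := by
  tfae_have 1 → 2 := by
    intro h t ht
    rw [h t ht, C.ext_zero_left]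
  tfae_have 2 → 3 := by
    intro h
    refine ⟨0, Fin.elim0, fun j => j.elim0, fun j => j.elim0, fun t ht => ?_⟩
    rw [act_dg, h t ht]
    exact Submodule.zero_mem _
  tfae_have 3 → 1 := by
    rintro ⟨m, U, f, hU, hs⟩
    refine albKer_eq_zero hF hX hpg U f hU (fun t ht => ?_)
    have := hs t ht
    rwa [act_dg] at this
  tfae_have 1 → 5 := by
    intro h
    obtain ⟨Y, g, hY, hg⟩ := hcurves X (by omega)
    refine ⟨1, fun _ => Y.prod Y, fun _ => prodMap g g, fun _ => by
      rw [dim_prod, hY], fun z hz => ?_⟩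
    have h1 := hF.products X X z hz
    refine (Submodule.span_le.2 ?_ : _ ≤ zeroSupp C _ _) h1
    rintro w ⟨x, y, hx, hy, rfl⟩
    obtain ⟨x', hx', hxa⟩ := hg x hx
    obtain ⟨y', hy', hya⟩ := hg y hy
    rw [sub_eq_zero.1 (h _ hxa), sub_eq_zero.1 (h _ hya)]
    refine Submodule.subset_span ⟨0, C.ext x' y', ?_, ?_⟩
    · have := ext_mem' hx' hy'
      change _ ∈ C.gr _ _
      rw [dim_prod, hY]
      exact this
    · exact (push_ext C g g x' y').symm
  tfae_have 5 → 4 := by
    rintro ⟨m, U, f, hU, hs⟩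
    refine ⟨m, U, f, hU, fun x y hx hy => Submodule.add_mem _ (hs _ ?_) (hs _ ?_)⟩
    · have := ext_mem' hx hy
      rw [dim_prod]; push_cast; exact this
    · have := ext_mem' hy hx
      rw [dim_prod]; push_cast; exact this
  tfae_have 4 → 3 := by
    rintro ⟨m, U, f, hU, hs⟩
    refine ⟨m, U, f, hU, fun t ht => ?_⟩
    have h1 := Submodule.smul_mem _ ((2 : ℚ)⁻¹) (hs t t ht.deg ht.deg)
    rw [act_dg]
    rwa [← two_smul ℚ, smul_smul, inv_mul_cancel₀ (two_ne_zero), one_smul] at h1
  tfae_finish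

end Pool.Agent.Y110.BP
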