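import Pool.Agent.Y110.BP.Core

/-!
# The quadratic relation
-/

open CategoryTheory AlgebraicGeometry

universe u v w

namespace Pool.Agent.Y110.BP

open Pool.Agent.H914 Pool.Agent.H914.VarClass Pool.Agent.H914.VarClass.Obj Pool.Agent.W492.BB
  Pool.Agent.W550.Corr Pool.Agent.TH133 Pool.Agent.Y152.AS

set_option linter.unusedSectionVars false
set_option linter.unusedVariables false

variable {k : Type u} [Field k] {𝒱 : VarClass k}

section chow

variable {C : TheoryData.{u, v, 0} 𝒱 ℚ} [hC : IsChowProj C] {X Y W U S T : 𝒱.Obj}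

/-- The correspondence `(1 + σ) ∘ (A × B)`, where `σ` is the exchange of the factors. -/
noncomputable def symTens (C : TheoryData.{u, v, 0} 𝒱 ℚ) (A B : C.A (S.prod T)) :
    C.A ((S.prod S).prod (T.prod T)) :=
  tens C A B + C.push (prodMap (𝟙 (S.prod S)) (sw T T)) (tens C A B)

include hC

lemma push_sw_ext (a : C.A X) (b : C.A Y) : C.push (sw X Y) (C.ext a b) = C.ext b a := by
  rw [← tp_eq_push, tp_ext]

lemma act_symTens (A B : C.A (S.prod T)) (x y : C.A S) :
    C.act (symTens C A B) (C.ext x y) =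
      C.ext (C.act A x) (C.act B y) + C.ext (C.act B y) (C.act A x) := by
  rw [symTens, C.act_add, ← Y148.BB.comp_graph, C.act_comp, C.act_graph,
    act_tens_ext C A B (fun f c => ch_comm C _ _), push_sw_ext]

lemma symTens_mem {i j : ℤ} {A B : C.A (S.prod T)} (hA : A ∈ C.gr (S.prod T) i)
    (hB : B ∈ C.gr (S.prod T) j) :
    symTens C A B ∈ C.gr ((S.prod S).prod (T.prod T)) (i + j) := by
  have h1 := tens_mem C hA hB
  refine Submodule.add_mem _ h1 ?_
  have h2 := C.push_mem (prodMap (𝟙 (S.prod S)) (sw T T)) h1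
  rwa [sub_self, mul_zero, add_zero] at h2

lemma act_tp_symTens (A B : C.A (S.prod T)) (e : C.A (T.prod T)) :
    C.act (tp C (symTens C A B)) e = C.comp (C.comp A (e + tp C e)) (tp C B) := by
  have h1 : ∀ e' : C.A (T.prod T), C.act (tp C (tens C A B)) e' =
      C.comp (C.comp A e') (tp C B) := by
    intro e'
    rw [tp_tens, act_tens C (ch_comm C), tp_tp]
  rw [symTens, tp_add, C.act_add, act_tp_push_right, h1, h1, comp_add, add_comp]
  rfl

lemma zeroSupp_le {m : ℕ} (U : Fin m → 𝒱.Obj) (f : ∀ j, U j ⟶ Y) :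
    zeroSupp C U f ≤ C.gr Y Y.dim := by
  rw [zeroSupp, Submodule.span_le]
  rintro z ⟨j, β, hβ, rfl⟩
  have h := C.push_mem (f j) hβ
  have e1 : ((U j).dim : ℤ) + 1 * ((Y.dim : ℤ) - (U j).dim) = Y.dim := by ring
  rwa [e1] at h

section weil

variable {K : Type w} [Field K] {H : WeilTheoryData.{u, v, w} C K} [hH : IsWeilProj H]

include hH

/-- The relation for the sum of two symmetrised products. -/
theorem rel (hF : ClassicalFacts H) (hT : T.dim = 2) {m : ℕ}
    (U : Fin m → 𝒱.Obj) (f : ∀ j, U j ⟶ T.prod T) (hU : ∀ j, (U j).dim ≤ 2)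
    (A B A' B' : C.A (S.prod T)) (hA : A ∈ C.gr (S.prod T) 2) (hB : B ∈ C.gr (S.prod T) 2)
    (hA' : A' ∈ C.gr (S.prod T) 2) (hB' : B' ∈ C.gr (S.prod T) 2)
    (hs : ∀ x y : C.A S, C.Deg S.dim x → C.Deg S.dim y →
      C.ext (C.act A x) (C.act B y) + C.ext (C.act B y) (C.act A x) +
        (C.ext (C.act A' x) (C.act B' y) + C.ext (C.act B' y) (C.act A' x)) ∈ zeroSupp C U f)
    (e : C.A (T.prod T)) (he : e ∈ C.gr (T.prod T) 2) (hcl : H.cl e = 0) :
    C.comp (C.comp A (e + tp C e)) (tp C B) + C.comp (C.comp A' (e + tp C e)) (tp C B') ∈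
      algTrivial H (S.prod S) 2 := by
  have h1 := core hF (symTens C A B + symTens C A' B') (by
    have e1 : ((T.prod T).dim : ℤ) = 2 + 2 := by rw [dim_prod, hT]; norm_num
    change _ ∈ C.gr _ _
    rw [e1]
    exact Submodule.add_mem _ (symTens_mem hA hB) (symTens_mem hA' hB')) U f hU (by
      intro z hz
      have h2 := hF.products S S z hz
      induction h2 using Submodule.span_induction with
      | mem w hw =>
        obtain ⟨x, y, hx, hy, rfl⟩ := hw
        rw [C.act_add, act_symTens, act_symTens]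
        exact hs x y hx hy
      | zero => rw [C.act_map_zero]; exact Submodule.zero_mem _
      | add a b ha hb iha ihb =>
        have hle : ∀ c ∈ Submodule.span ℚ {w : C.A (S.prod S) | ∃ (x : C.A S) (y : C.A S),
            C.Deg S.dim x ∧ C.Deg S.dim y ∧ w = C.ext x y}, c ∈ C.gr (S.prod S) (S.prod S).dim := by
          intro c hc
          have : Submodule.span ℚ {w : C.A (S.prod S) | ∃ (x : C.A S) (y : C.A S),
              C.Deg S.dim x ∧ C.Deg S.dim y ∧ w = C.ext x y} ≤ C.gr (S.prod S) (S.prod S).dim := by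
            rw [Submodule.span_le]
            rintro _ ⟨x, y, hx, hy, rfl⟩
            have := ext_mem' hx hy
            rw [dim_prod]
            push_cast
            exact this
          exact this hc
        rw [act_map_add]
        exact Submodule.add_mem _ (iha (hle _ ha)) (ihb (hle _ hb))
      | smul q a ha iha =>
        rw [act_map_smul]
        by_cases hq : q = 0
        · rw [hq, zero_smul]; exact Submodule.zero_mem _
        · refine Submodule.smul_mem _ _ (iha ?_)
          have := Submodule.smul_mem (C.gr (S.prod S) (S.prod S).dim) q⁻¹ hz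
          rwa [smul_smul, inv_mul_cancel₀ hq, one_smul] at this) e he hcl
  rw [tp_add, C.act_add, act_tp_symTens, act_tp_symTens] at h1
  exact h1

end weil

end chow

end Pool.Agent.Y110.BP
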